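import Mathlib

set_option autoImplicit false

namespace Pool.Agent.H.MP_345b41_al

/-- elements above `x` that have a proper disjoint partner above `x` -/
def U {L : Type} [Lattice L] (x : L) : Set L := {f | x ≤ f ∧ ∃ a, x < a ∧ f ⊓ a = x}

theorem U_map {L L' : Type} [Lattice L] [Lattice L'] (e : L ≃o L') {x f : L} (h : f ∈ U x) :
    e f ∈ U (e x) := by
  obtain ⟨h1, a, h2, h3⟩ := h
  exact ⟨e.monotone h1, e a, e.strictMono h2, by rw [← e.map_inf, h3]⟩

theorem comm_case {G : Type} [CommGroup G] [Lattice G] [MulLeftMono G] {s : G}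
    (hs : IsLUB (U (1 : G)) s) {u : G} (hu : u ∈ U (1 : G)) : u ≤ 1 := by
  have sq : ∀ v ∈ U (1 : G), v * v ≤ s := by
    rintro v ⟨h1, a, h2, h3⟩
    refine hs.1 ⟨one_le_mul h1 h1, a, h2, le_antisymm ?_ (le_inf (one_le_mul h1 h1) h2.le)⟩
    have : (v * v ⊓ a) / v ≤ 1 := by
      rw [← h3]
      refine le_inf (div_le_iff_le_mul.2 inf_le_left) (div_le_iff_le_mul.2 ?_)
      exact inf_le_right.trans (le_mul_of_one_le_right' h1)
    rw [← h3]
    exact le_inf (div_le_one'.1 this) inf_le_right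
  have : s ≤ s / u := hs.2 fun v hv => by
    rw [le_div_iff_mul_le]
    have h1 := mul_le_mul_right (one_le_mabs (v / u)) (v * u)
    rw [mul_one, mabs, mul_sup] at h1
    refine h1.trans (sup_le ?_ ?_)
    · convert sq v hv using 1
      rw [mul_assoc, mul_div_cancel]
    · convert sq u hu using 1
      rw [inv_div, mul_comm v, mul_assoc, mul_div_cancel]
  rwa [le_div_iff_mul_le, mul_le_iff_le_one_right'] at this

abbrev A := ℚ ≃o ℚ

noncomputable def supA (f g : A) : A :=
  StrictMono.orderIsoOfSurjective (fun t => max (f t) (g t))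
    (fun _ _ h => max_lt_max (f.strictMono h) (g.strictMono h)) fun y => by
      rcases le_total (f.symm y) (g.symm y) with h | h
      · exact ⟨f.symm y, by simpa using g.le_symm_apply.1 h⟩
      · exact ⟨g.symm y, by simpa using f.le_symm_apply.1 h⟩

noncomputable def infA (f g : A) : A :=
  StrictMono.orderIsoOfSurjective (fun t => min (f t) (g t))
    (fun _ _ h => min_lt_min (f.strictMono h) (g.strictMono h)) fun y => by
      rcases le_total (f.symm y) (g.symm y) with h | h
      · exact ⟨g.symm y, by simpa using f.symm_apply_le.1 h⟩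
      · exact ⟨f.symm y, by simpa using g.symm_apply_le.1 h⟩

theorem supA_apply (f g : A) (t : ℚ) : supA f g t = max (f t) (g t) := rfl
theorem infA_apply (f g : A) (t : ℚ) : infA f g t = min (f t) (g t) := rfl

/-- periodic extension of an automorphism fixing `0` and `1` -/
noncomputable def per (ψ : A) (h0 : ψ 0 = 0) (h1 : ψ 1 = 1) : A :=
  StrictMono.orderIsoOfSurjective (fun t => (⌊t⌋ : ℚ) + ψ (Int.fract t))
    (fun a b h => by
      rcases (Int.floor_mono h.le).lt_or_eq with e | e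
      · have e' : (⌊a⌋ : ℚ) + 1 ≤ ⌊b⌋ := by exact_mod_cast e
        have := ψ.strictMono (Int.fract_lt_one a)
        have := ψ.monotone (Int.fract_nonneg b)
        show _ + _ < _ + _
        linarith
      · have : Int.fract a < Int.fract b := by
          unfold Int.fract; rw [e]; linarith
        have := ψ.strictMono this
        show _ + _ < _ + _
        rw [e]; linarith)
    fun y => by
      have a0 : 0 ≤ ψ.symm (Int.fract y) := ψ.le_symm_apply.2 (h0.trans_le (Int.fract_nonneg y))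
      have a1 : ψ.symm (Int.fract y) < 1 := ψ.symm_apply_lt.2 ((Int.fract_lt_one y).trans_eq h1.symm)
      refine ⟨⌊y⌋ + ψ.symm (Int.fract y), ?_⟩
      simp only [Int.floor_intCast_add, Int.fract_intCast_add]
      rw [Int.floor_eq_zero_iff.2 ⟨a0, a1⟩, Int.fract_eq_self.2 ⟨a0, a1⟩]
      simp

theorem per_apply (ψ : A) (h0 : ψ 0 = 0) (h1 : ψ 1 = 1) (t : ℚ) :
    per ψ h0 h1 t = (⌊t⌋ : ℚ) + ψ (Int.fract t) := rfl

noncomputable def aff (m c : ℚ) (hm : 0 < m) : A :=
  StrictMono.orderIsoOfSurjective (fun t => m * t + c) (fun _ _ h => by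
    show _ + _ < _ + _
    nlinarith) fun y => ⟨(y - c) / m, by field_simp; ring⟩

theorem aff_apply (m c : ℚ) (hm : 0 < m) (t : ℚ) : aff m c hm t = m * t + c := rfl

noncomputable def ψ (M : {M : ℚ // 1 ≤ M}) : A :=
  supA (aff M.1⁻¹ 0 (inv_pos.2 (one_pos.trans_le M.2))) (aff M.1 (1 - M.1) (one_pos.trans_le M.2))

theorem ψ_zero (M : {M : ℚ // 1 ≤ M}) : ψ M 0 = 0 := by
  simp [ψ, supA_apply, aff_apply, M.2]

theorem ψ_one (M : {M : ℚ // 1 ≤ M}) : ψ M 1 = 1 := by
  simp [ψ, supA_apply, aff_apply, inv_le_one_of_one_le₀ M.2]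

inductive Tm : Type
  | tr : ℚ → Tm
  | pe : {M : ℚ // 1 ≤ M} → Tm
  | one : Tm
  | mul : Tm → Tm → Tm
  | inv : Tm → Tm
  | sup : Tm → Tm → Tm
  | inf : Tm → Tm → Tm
  deriving Countable

noncomputable def ev : Tm → A
  | .tr c => aff 1 c one_pos
  | .pe M => per (ψ M) (ψ_zero M) (ψ_one M)
  | .one => 1
  | .mul a b => ev a * ev b
  | .inv a => (ev a)⁻¹
  | .sup a b => supA (ev a) (ev b)
  | .inf a b => infA (ev a) (ev b)

theorem ev_per (a : Tm) : ∀ t, ev a (t + 1) = ev a t + 1 := by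
  induction a with
  | tr c => intro t; simp only [ev, aff_apply]; ring
  | pe M => intro t; simp only [ev, per_apply]; simp; ring
  | one => intro t; rfl
  | mul a b ha hb => intro t; show ev a (ev b _) = ev a (ev b _) + 1; rw [hb, ha]
  | inv a ha =>
    intro t
    apply (ev a).injective
    show ev a ((ev a).symm _) = ev a ((ev a).symm _ + 1)
    rw [ha, OrderIso.apply_symm_apply, OrderIso.apply_symm_apply]
  | sup a b ha hb => intro t; simp only [ev, supA_apply, ha, hb, max_add_add_right]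
  | inf a b ha hb => intro t; simp only [ev, infA_apply, ha, hb, min_add_add_right]

theorem ev_int (a : Tm) (t : ℚ) (n : ℤ) : ev a (t + n) = ev a t + n := by
  induction n using Int.induction_on with
  | zero => simp
  | succ n ih => push_cast at ih ⊢; rw [← add_assoc, ev_per, ih, add_assoc]
  | pred n ih =>
    push_cast at ih ⊢
    have := ev_per a (t + (-n - 1))
    rw [show t + (-n - 1) + 1 = t + -n by ring, ih] at this
    linarith

def Hs : Subgroup A where
  carrier := Set.range ev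
  mul_mem' := by rintro _ _ ⟨a, rfl⟩ ⟨b, rfl⟩; exact ⟨.mul a b, rfl⟩
  one_mem' := ⟨.one, rfl⟩
  inv_mem' := by rintro _ ⟨a, rfl⟩; exact ⟨.inv a, rfl⟩

def H : Type := Hs

noncomputable instance : Group H := inferInstanceAs (Group Hs)
instance : Countable H := (Set.countable_range ev).to_subtype

def H.f (g : H) : A := (show Hs from g).1

noncomputable instance : Lattice H where
  le f g := ∀ t, f.f t ≤ g.f t
  le_refl _ _ := le_rfl
  le_trans _ _ _ h h' t := (h t).trans (h' t)
  le_antisymm _ _ h h' := Subtype.ext (OrderIso.ext (funext fun t => le_antisymm (h t) (h' t)))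
  sup f g := (⟨supA f.f g.f, by
    obtain ⟨_, a, rfl⟩ := f; obtain ⟨_, b, rfl⟩ := g; exact ⟨.sup a b, rfl⟩⟩ : Hs)
  le_sup_left _ _ _ := le_max_left _ _
  le_sup_right _ _ _ := le_max_right _ _
  sup_le _ _ _ h h' t := max_le (h t) (h' t)
  inf f g := (⟨infA f.f g.f, by
    obtain ⟨_, a, rfl⟩ := f; obtain ⟨_, b, rfl⟩ := g; exact ⟨.inf a b, rfl⟩⟩ : Hs)
  inf_le_left _ _ _ := min_le_left _ _
  inf_le_right _ _ _ := min_le_right _ _
  le_inf _ _ _ h h' t := le_min (h t) (h' t)

instance : MulLeftMono H := ⟨fun a _ _ h t => a.f.monotone (h t)⟩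
instance : MulRightMono H := ⟨fun a _ _ h t => h (a.f t)⟩

noncomputable def mk (a : Tm) : H := (⟨ev a, a, rfl⟩ : Hs)

theorem lub : IsLUB (U (1 : H)) (mk (.tr 1)) := by
  constructor
  · rintro u ⟨h1, a, h2, h3⟩ t
    obtain ⟨t0, ht0⟩ : ∃ t0, t0 < a.f t0 := by
      by_contra hc
      push Not at hc
      exact h2.not_ge hc
    have e : min (u.f t0) (a.f t0) = t0 := congrArg (fun g : H => g.f t0) h3
    have e' : u.f t0 = t0 := by
      rcases min_choice (u.f t0) (a.f t0) with h | h <;> rw [h] at e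
      · exact e
      · exact absurd e ht0.ne'
    obtain ⟨_, b, rfl⟩ := u
    have i1 := Int.le_ceil (t - t0)
    have i2 := Int.ceil_lt_add_one (t - t0)
    have i3 := (ev b).monotone (show t ≤ t0 + ⌈t - t0⌉ by linarith)
    rw [ev_int] at i3
    change ev b t0 = t0 at e'
    show ev b t ≤ 1 * t + 1
    linarith
  · intro s hs t
    show 1 * t + 1 ≤ s.f t
    by_contra hc
    have hd : 0 < t + 1 - s.f t := by linarith
    let M : {M : ℚ // 1 ≤ M} := ⟨4 / (t + 1 - s.f t) + 1, by
      have := div_pos (show (0 : ℚ) < 4 by norm_num) hd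
      linarith⟩
    have M0 : 0 < M.1 := one_pos.trans_le M.2
    have M1 : M.1⁻¹ ≤ 1 := inv_le_one_of_one_le₀ M.2
    have M2 : 0 < M.1⁻¹ := inv_pos.2 M0
    have M3 : 4 * M.1⁻¹ < t + 1 - s.f t := by
      rw [← div_eq_mul_inv, div_lt_iff₀ M0]
      show 4 < (t + 1 - s.f t) * (4 / (t + 1 - s.f t) + 1)
      rw [mul_add, mul_div_cancel₀ _ hd.ne']
      linarith
    let h : H := mk (.mul (.tr ((s.f t + t + 1) / 2)) (.mul (.pe M) (.tr (-t))))
    have hf : ∀ x, 0 ≤ x → x < 1 → h.f (t + x) = ψ M x + (s.f t + t + 1) / 2 := by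
      intro x x0 x1
      show 1 * per (ψ M) (ψ_zero M) (ψ_one M) (1 * (t + x) + -t) + _ = _
      rw [show 1 * (t + x) + -t = x by ring, per_apply, Int.floor_eq_zero_iff.2 ⟨x0, x1⟩,
        Int.fract_eq_self.2 ⟨x0, x1⟩]
      simp
    have hU : h ⊔ 1 ∈ U (1 : H) := by
      refine ⟨le_sup_right, h⁻¹ ⊔ 1, lt_of_le_not_ge le_sup_right fun hh => ?_,
        oneLePart_inf_leOnePart_eq_one h⟩
      have h1 : 1 ≤ h := inv_le_one'.1 (le_sup_left.trans hh)
      have h2 : t + (1 - M.1⁻¹) ≤ h.f (t + (1 - M.1⁻¹)) := h1 _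
      rw [hf _ (by linarith) (by linarith), ψ, supA_apply, aff_apply, aff_apply] at h2
      have : M.1 * (1 - M.1⁻¹) + (1 - M.1) = 0 := by
        rw [mul_sub, mul_inv_cancel₀ M0.ne']; ring
      rw [this, max_eq_left (by nlinarith)] at h2
      nlinarith
    have h3 : h.f t ≤ s.f t := (le_sup_left.trans (hs hU)) t
    have h4 := hf 0 le_rfl one_pos
    rw [add_zero, ψ_zero] at h4
    linarith

theorem main : ¬ ∃ (G : Type) (_ : CommGroup G) (_ : Lattice G),
    MulLeftMono G ∧ Nonempty (H ≃o G) := by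
  rintro ⟨G, _, _, _, ⟨e0⟩⟩
  let e : H ≃o G := e0.trans (OrderIso.mulLeft (e0 1)⁻¹)
  have e1 : e 1 = 1 := by simp [e]
  have e2 : e.symm 1 = 1 := by rw [← e1, e.symm_apply_apply]
  have hl : IsLUB (U (1 : G)) (e (mk (.tr 1))) := by
    constructor
    · intro v hv
      exact e.symm_apply_le.1 (lub.1 (e2 ▸ U_map e.symm hv))
    · intro v hv
      exact e.le_symm_apply.1 (lub.2 fun u hu => e.le_symm_apply.2 (hv (e1 ▸ U_map e hu)))
  have : mk (.tr 1) ≤ 1 := lub.2 fun u hu => by
    have := comm_case hl (e1 ▸ U_map e hu)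
    rwa [← e1, e.le_iff_le] at this
  have h : (1 : ℚ) * 0 + 1 ≤ 0 := this 0
  norm_num at h

end Pool.Agent.H.MP_345b41_al
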